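import Mathlib
import Pool.Agent.W17.NF.Stm

/-! NF-TRI: balanced integral triples. -/

set_option autoImplicit false

namespace Pool.Agent.W366.NF

open NumberField Finset Pool.Agent.W17.NF nonZeroDivisors

/-- product of the absolute values of a unit -/
theorem unit_prod {K : Type} [Field K] [NumberField K] (u : (𝓞 K)ˣ) :
    ∏ w : InfinitePlace K, w (u : K) ^ w.mult = 1 := by
  rw [InfinitePlace.prod_eq_abs_norm, Units.norm, Rat.cast_one]

/-- multiplication of the generators -/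
theorem span_mul3 {R : Type} [CommRing R] (x a b c : R) :
    Ideal.span {x} * Ideal.span {a, b, c} = Ideal.span {x * a, x * b, x * c} := by
  rw [Ideal.span_mul_span']
  congr 1
  ext z
  simp only [Set.mem_mul, Set.mem_insert_iff, Set.mem_singleton_iff]
  constructor
  · rintro ⟨y, rfl, y', h | h | h, rfl⟩ <;> subst h <;> simp
  · rintro (h | h | h)
    · exact ⟨x, rfl, a, Or.inl rfl, h.symm⟩
    · exact ⟨x, rfl, b, Or.inr (Or.inl rfl), h.symm⟩
    · exact ⟨x, rfl, c, Or.inr (Or.inr rfl), h.symm⟩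

theorem stmtTri_of (K : Type) [Field K] [NumberField K] (h : StmtBal K) : StmtTri K := by
  classical
  obtain ⟨C, hC1, hC⟩ := h
  have hsurj := ClassGroup.mk0_surjective (R := 𝓞 K)
  choose rep hrep using hsurj
  refine ⟨Finset.univ.image (fun q : ClassGroup (𝓞 K) => ((rep q : (Ideal (𝓞 K))⁰) : Ideal (𝓞 K))),
    C, hC1, ?_, ?_⟩
  · intro I hI
    obtain ⟨q, -, rfl⟩ := Finset.mem_image.mp hI
    exact mem_nonZeroDivisors_iff_ne_zero.mp (rep q).2
  intro a b c ha hb hc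
  -- clear the denominators
  obtain ⟨⟨n, hn⟩, hn'⟩ := IsLocalization.exist_integer_multiples_of_finset (𝓞 K)⁰
    ({a, b, c} : Finset K)
  have hn0 : n ≠ 0 := mem_nonZeroDivisors_iff_ne_zero.mp hn
  obtain ⟨a1, ha1⟩ := hn' a (by simp)
  obtain ⟨b1, hb1⟩ := hn' b (by simp)
  obtain ⟨c1, hc1⟩ := hn' c (by simp)
  simp only [Algebra.smul_def] at ha1 hb1 hc1
  have hnK : (algebraMap (𝓞 K) K n) ≠ 0 := by
    rw [Ne, FaithfulSMul.algebraMap_eq_zero_iff]; exact hn0
  have ha10 : a1 ≠ 0 := by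
    rintro rfl
    rw [map_zero] at ha1
    exact mul_ne_zero hnK ha ha1.symm
  set I : Ideal (𝓞 K) := Ideal.span {a1, b1, c1} with hI
  have hI0 : I ≠ ⊥ := by
    intro h0
    rw [hI, Ideal.span_eq_bot] at h0
    exact ha10 (h0 a1 (by simp))
  set q := ClassGroup.mk0 (⟨I, mem_nonZeroDivisors_iff_ne_zero.mpr hI0⟩ : (Ideal (𝓞 K))⁰) with hq
  have h1 := hrep q
  rw [hq, eq_comm, ClassGroup.mk0_eq_mk0_iff] at h1
  obtain ⟨x, y, hx, hy, hxy⟩ := h1
  rw [← hq] at hxy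
  simp only at hxy
  set J : Ideal (𝓞 K) := ((rep q : (Ideal (𝓞 K))⁰) : Ideal (𝓞 K)) with hJ
  have hdiv : ∀ z ∈ I, ∃ z' : 𝓞 K, x * z = y * z' := by
    intro z hz
    have h2 : x * z ∈ Ideal.span {y} * J := by
      rw [← hxy]
      exact Ideal.mul_mem_mul (Ideal.mem_span_singleton_self x) hz
    obtain ⟨z', -, hz'⟩ := Ideal.mem_span_singleton_mul.mp h2
    exact ⟨z', hz'.symm⟩
  obtain ⟨a2, ha2⟩ := hdiv a1 (Ideal.subset_span (by simp))
  obtain ⟨b2, hb2⟩ := hdiv b1 (Ideal.subset_span (by simp))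
  obtain ⟨c2, hc2⟩ := hdiv c1 (Ideal.subset_span (by simp))
  have hspan : Ideal.span {a2, b2, c2} = J := by
    have h3 : Ideal.span {y} * Ideal.span {a2, b2, c2} = Ideal.span {y} * J := by
      rw [← hxy, hI, span_mul3, span_mul3, ha2, hb2, hc2]
    have h4 : (Ideal.span {y} : Ideal (𝓞 K)) ≠ 0 := by
      rw [Ne, Ideal.zero_eq_bot, Ideal.span_singleton_eq_bot]; exact hy
    exact mul_left_cancel₀ h4 h3
  have hyK : (algebraMap (𝓞 K) K y) ≠ 0 := by
    rw [Ne, FaithfulSMul.algebraMap_eq_zero_iff]; exact hy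
  have hxK : (algebraMap (𝓞 K) K x) ≠ 0 := by
    rw [Ne, FaithfulSMul.algebraMap_eq_zero_iff]; exact hx
  set t1 : K := algebraMap (𝓞 K) K x / algebraMap (𝓞 K) K y * algebraMap (𝓞 K) K n with ht1
  have ht10 : t1 ≠ 0 := mul_ne_zero (div_ne_zero hxK hyK) hnK
  have hval : ∀ (z : K) (z1 z2 : 𝓞 K), algebraMap (𝓞 K) K z1 = algebraMap (𝓞 K) K n * z →
      x * z1 = y * z2 → (z2 : K) = t1 * z := by
    intro z z1 z2 hz1 hz2
    have h5 : algebraMap (𝓞 K) K x * algebraMap (𝓞 K) K z1 =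
      algebraMap (𝓞 K) K y * algebraMap (𝓞 K) K z2 := by
      rw [← map_mul, ← map_mul, hz2]
    rw [hz1] at h5
    show algebraMap (𝓞 K) K z2 = t1 * z
    rw [ht1]
    field_simp
    linear_combination -h5
  have hA2 := hval a a1 a2 ha1 ha2
  have hB2 := hval b b1 b2 hb1 hb2
  have hC2 := hval c c1 c2 hc1 hc2
  -- balance
  obtain ⟨u, hu⟩ := hC (fun w => max (w (a2 : K)) (max (w (b2 : K)) (w (c2 : K)))) (fun w => by
    refine lt_max_of_lt_left ?_
    rw [hA2]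
    exact InfinitePlace.pos_iff.mpr (mul_ne_zero ht10 ha))
  have hmax : ∀ w : InfinitePlace K, max (w ((u * a2 : 𝓞 K) : K))
      (max (w ((u * b2 : 𝓞 K) : K)) (w ((u * c2 : 𝓞 K) : K))) =
      w (u : K) * max (w (a2 : K)) (max (w (b2 : K)) (w (c2 : K))) := by
    intro w
    have h0 : 0 ≤ w (u : K) := apply_nonneg _ _
    rw [mul_max_of_nonneg _ _ h0, mul_max_of_nonneg _ _ h0]
    simp only [map_mul]
  refine ⟨(u : K) * t1, u * a2, u * b2, u * c2, ?_, ?_, ?_, ?_, ?_, ?_⟩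
  · refine mul_ne_zero ?_ ht10
    exact NumberField.Units.coe_ne_zero u
  · rw [mul_assoc, ← hA2]; exact map_mul (algebraMap (𝓞 K) K) _ _
  · rw [mul_assoc, ← hB2]; exact map_mul (algebraMap (𝓞 K) K) _ _
  · rw [mul_assoc, ← hC2]; exact map_mul (algebraMap (𝓞 K) K) _ _
  · rw [Finset.mem_image]
    refine ⟨q, Finset.mem_univ _, ?_⟩
    rw [← hJ, ← hspan, ← span_mul3, Ideal.span_singleton_eq_top.mpr u.isUnit, Ideal.top_mul]
  · intro w
    have h6 := (hu w).1
    rw [hmax w]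
    refine h6.trans (le_of_eq ?_)
    congr 2
    have h7 : ∀ v : InfinitePlace K, (max (v ((u * a2 : 𝓞 K) : K))
      (max (v ((u * b2 : 𝓞 K) : K)) (v ((u * c2 : 𝓞 K) : K)))) ^ v.mult =
      v (u : K) ^ v.mult * (max (v (a2 : K)) (max (v (b2 : K)) (v (c2 : K)))) ^ v.mult := by
      intro v
      rw [hmax v, mul_pow]
    rw [Finset.prod_congr rfl (fun v _ => h7 v), Finset.prod_mul_distrib, unit_prod, one_mul]

end Pool.Agent.W366.NF
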